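import Pool.Agent.Q286.GB.Stm

/-!
# Project GB (helper286): job CAR (helper190)
-/

set_option autoImplicit false

namespace Pool.Agent.Q190.GB

open Complex Filter Topology Set
open scoped ComplexConjugate
open Pool.Agent.Q286.GB

/-- The strict case. -/
theorem car_pos (G : ℂ → ℂ) (c : ℂ) (R ε : ℝ) (hR : 0 < R) (hε : 0 < ε)
    (hd : DifferentiableOn ℂ G (Metric.ball c R)) (hp : ∀ z ∈ Metric.ball c R, ε ≤ (G z).re)
    {z : ℂ} (hz : z ∈ Metric.ball c R) :
    ‖G z - G c‖ ≤ ‖z - c‖ / R * ‖G z + conj (G c)‖ := by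
  have hc : c ∈ Metric.ball c R := Metric.mem_ball_self hR
  have hden : ∀ y ∈ Metric.ball c R, G y + conj (G c) ≠ 0 := by
    intro y hy h
    have h1 := congrArg Complex.re h
    rw [add_re, conj_re, zero_re] at h1
    linarith [hp y hy, hp c hc]
  have hlt : ∀ y ∈ Metric.ball c R, ‖G y - G c‖ < ‖G y + conj (G c)‖ := by
    intro y hy
    refine lt_of_pow_lt_pow_left₀ 2 (norm_nonneg _) ?_
    rw [← Complex.normSq_eq_norm_sq, ← Complex.normSq_eq_norm_sq, Complex.normSq_apply,
      Complex.normSq_apply]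
    simp only [sub_re, sub_im, add_re, add_im, conj_re, conj_im]
    have h1 := hp y hy
    have h2 := hp c hc
    nlinarith [mul_pos (lt_of_lt_of_le hε h1) (lt_of_lt_of_le hε h2)]
  have hW : DifferentiableOn ℂ (fun y => (G y - G c) / (G y + conj (G c))) (Metric.ball c R) :=
    (hd.sub_const _).div (hd.add_const _) hden
  have hmaps : MapsTo (fun y => (G y - G c) / (G y + conj (G c))) (Metric.ball c R)
      (Metric.closedBall ((fun y => (G y - G c) / (G y + conj (G c))) c) 1) := by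
    intro y hy
    simp only [sub_self, zero_div]
    rw [mem_closedBall_zero_iff, norm_div, div_le_one (norm_pos_iff.2 (hden y hy))]
    exact (hlt y hy).le
  have h1 := Complex.dist_le_div_mul_dist_of_mapsTo_ball hW hmaps hz
  simp only [sub_self, zero_div] at h1
  rw [dist_zero_right, norm_div, div_le_iff₀ (norm_pos_iff.2 (hden z hz)), dist_eq_norm] at h1
  calc ‖G z - G c‖ ≤ 1 / R * ‖z - c‖ * ‖G z + conj (G c)‖ := h1
    _ = _ := by ring

/-- **GB-CAR.** -/
theorem t_CAR : S_CAR := by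
  intro F c R hR hd hp z hz
  have hr : ‖z - c‖ < R := by rwa [← dist_eq_norm]
  set r := ‖z - c‖ with hrd
  have hr0 : 0 ≤ r := norm_nonneg _
  have key : ∀ ε : ℝ, 0 < ε → ‖F z - F c‖ ≤ r / R * ‖F z + ε + conj (F c + ε)‖ := by
    intro ε hε
    have h1 := car_pos (fun y => F y + ε) c R ε hR hε (hd.add_const _) (fun y hy => by
      rw [add_re, ofReal_re]
      linarith [hp y hy]) hz
    simp only [add_sub_add_right_eq_sub] at h1
    exact h1
  have key0 : ‖F z - F c‖ ≤ r / R * ‖F z + conj (F c)‖ := by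
    have h1 : Tendsto (fun ε : ℝ => r / R * ‖F z + (ε : ℂ) + conj (F c + (ε : ℂ))‖) (𝓝[>] 0)
        (𝓝 (r / R * ‖F z + ((0 : ℝ) : ℂ) + conj (F c + ((0 : ℝ) : ℂ))‖)) := by
      have h2 : Continuous (fun ε : ℝ => r / R * ‖F z + (ε : ℂ) + conj (F c + (ε : ℂ))‖) := by
        fun_prop
      exact (h2.tendsto 0).mono_left nhdsWithin_le_nhds
    rw [ofReal_zero, add_zero, add_zero] at h1
    exact ge_of_tendsto h1 (eventually_nhdsWithin_of_forall fun ε hε => key ε hε)
  have hb0 : 0 ≤ (F c).re := hp c (Metric.mem_ball_self hR)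
  have ha0 : 0 ≤ (F z).re := hp z hz
  have hρ : r / R < 1 := (div_lt_one hR).2 hr
  have hρ0 : 0 ≤ r / R := div_nonneg hr0 hR.le
  constructor
  · have h2 : ‖F z + conj (F c)‖ ≤ ‖F z - F c‖ + 2 * (F c).re := by
      have h3 : F z + conj (F c) = (F z - F c) + ((2 * (F c).re : ℝ) : ℂ) := by
        rw [← add_conj]
        ring
      rw [h3]
      refine (norm_add_le _ _).trans ?_
      rw [Complex.norm_real, Real.norm_of_nonneg (by linarith)]
    have h4 : ‖F z - F c‖ ≤ r / R * (‖F z - F c‖ + 2 * (F c).re) :=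
      key0.trans (mul_le_mul_of_nonneg_left h2 hρ0)
    have h5 : R * ‖F z - F c‖ ≤ r * (‖F z - F c‖ + 2 * (F c).re) := by
      calc R * ‖F z - F c‖ ≤ R * (r / R * (‖F z - F c‖ + 2 * (F c).re)) :=
            mul_le_mul_of_nonneg_left h4 hR.le
        _ = r * (‖F z - F c‖ + 2 * (F c).re) := by
            field_simp
    rw [div_mul_eq_mul_div, le_div_iff₀ (by linarith)]
    nlinarith
  · set a := (F z).re with had
    set b := (F c).re with hbd
    set δ := (F z).im - (F c).im with hδ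
    have h1 : ‖F z - F c‖ ^ 2 = (a - b) ^ 2 + δ ^ 2 := by
      rw [← Complex.normSq_eq_norm_sq, Complex.normSq_apply]
      simp only [sub_re, sub_im]
      ring
    have h2 : ‖F z + conj (F c)‖ ^ 2 = (a + b) ^ 2 + δ ^ 2 := by
      rw [← Complex.normSq_eq_norm_sq, Complex.normSq_apply]
      simp only [add_re, add_im, conj_re, conj_im]
      ring
    have h3 : ‖F z - F c‖ ^ 2 ≤ (r / R) ^ 2 * ‖F z + conj (F c)‖ ^ 2 := by
      rw [← mul_pow]
      exact pow_le_pow_left₀ (norm_nonneg _) key0 2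
    rw [h1, h2] at h3
    have h4 : (a - b) ^ 2 ≤ (r / R * (a + b)) ^ 2 := by
      have h5 : (r / R) ^ 2 * δ ^ 2 ≤ δ ^ 2 := by
        have h6 : (r / R) ^ 2 ≤ 1 := pow_le_one₀ hρ0 hρ.le
        nlinarith [sq_nonneg δ]
      rw [mul_pow]
      linarith
    have h5 := abs_le_of_sq_le_sq' h4 (mul_nonneg hρ0 (by linarith))
    have h6 : b - a ≤ r / R * (a + b) := by linarith [h5.1]
    have h7 : R * (b - a) ≤ r * (a + b) := by
      calc R * (b - a) ≤ R * (r / R * (a + b)) := mul_le_mul_of_nonneg_left h6 hR.le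
        _ = r * (a + b) := by field_simp
    linarith

end Pool.Agent.Q190.GB
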