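import Pool.Agent.Q286.GB.Stm
import Pool.Agent.W613.HF.Step

/-!
# Project GB (helper286): job POS (helper190)
-/

set_option autoImplicit false

namespace Pool.Agent.Q190.GB

open Complex Filter Topology Set
open scoped ComplexConjugate
open Pool.Agent.Q286.GB

/-- **GB-POS.** -/
theorem t_POS : S_POS := by
  intro O hRH
  have hne : ∀ s : ℂ, 1 / 2 < s.re → O.X s ≠ 0 := by
    intro s hs
    have h1 : 1 / 2 - O.η < s.re := by linarith [O.η_pos]
    rw [O.eq s h1]
    exact mul_ne_zero (O.γ_ne s h1) (hRH s hs)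
  obtain ⟨ε, hε, hfe⟩ := O.fe
  have hG : H353.E.GLc 0 O.X := by
    refine ⟨O.diff, ⟨ε, hfe⟩, Pool.Agent.W613.HF.slow_growth ⟨O.diff, O.slow⟩, fun s hs => ?_⟩
    by_contra hcon
    push Not at hcon
    exact hne s (by linarith) hs
  have hre : ∀ s : ℂ, 1 / 2 < s.re → 0 ≤ (deriv O.X s / O.X s).re := by
    intro s hs
    exact Pool.Agent.W613.HF.re_nonneg hG ⟨s, hne s hs⟩ (by linarith)
  refine ⟨fun s hs => ⟨hne s hs, hre s hs⟩, ?_, ?_⟩
  · intro x y
    rw [hfe (1 / 2 - x + y * I), norm_mul, hε, one_mul, RCLike.norm_conj]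
    congr 2
    apply Complex.ext
    · simp
      norm_num
      ring
    · simp
  · intro x x' y hx hxx'
    have hder : ∀ t : ℝ, HasDerivAt (fun t : ℝ => O.X (1 / 2 + t + y * I))
        (deriv O.X (1 / 2 + t + y * I)) t := by
      intro t
      have h1 : HasDerivAt (fun t : ℝ => (1 / 2 + (t : ℂ) + y * I)) 1 t := by
        have h2 := ((hasDerivAt_id t).ofReal_comp.const_add (1 / 2 : ℂ)).add_const (y * I : ℂ)
        simpa using h2
      have h2 := (O.diff (1 / 2 + t + y * I)).hasDerivAt
      have h3 := HasDerivAt.comp_of_eq t h2 h1 rfl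
      rwa [mul_one] at h3
    have hre' : ∀ t : ℝ, HasDerivAt (fun t : ℝ => (O.X (1 / 2 + t + y * I)).re)
        (deriv O.X (1 / 2 + t + y * I)).re t := fun t =>
      (Complex.reCLM.hasFDerivAt.comp_hasDerivAt t (hder t))
    have him' : ∀ t : ℝ, HasDerivAt (fun t : ℝ => (O.X (1 / 2 + t + y * I)).im)
        (deriv O.X (1 / 2 + t + y * I)).im t := fun t =>
      (Complex.imCLM.hasFDerivAt.comp_hasDerivAt t (hder t))
    have hsq : ∀ t : ℝ, HasDerivAt (fun t : ℝ => Complex.normSq (O.X (1 / 2 + t + y * I)))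
        (2 * ((deriv O.X (1 / 2 + t + y * I)).re * (O.X (1 / 2 + t + y * I)).re +
          (deriv O.X (1 / 2 + t + y * I)).im * (O.X (1 / 2 + t + y * I)).im)) t := by
      intro t
      have h1 := ((hre' t).mul (hre' t)).add ((him' t).mul (him' t))
      refine (h1.congr_deriv (by ring)).congr_of_eventuallyEq ?_
      filter_upwards with u
      rw [Complex.normSq_apply]
      rfl
    have hmono : MonotoneOn (fun t : ℝ => Complex.normSq (O.X (1 / 2 + t + y * I))) (Ici 0) := by
      refine monotoneOn_of_deriv_nonneg (convex_Ici 0)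
        (fun t _ => (hsq t).continuousAt.continuousWithinAt)
        (fun t _ => (hsq t).differentiableAt.differentiableWithinAt) fun t ht => ?_
      rw [interior_Ici] at ht
      rw [(hsq t).deriv]
      have hs : 1 / 2 < (1 / 2 + t + y * I : ℂ).re := by
        have h1 : (1 / 2 + t + y * I : ℂ).re = 1 / 2 + t := by
          simp
        rw [h1]
        linarith [show (0 : ℝ) < t from ht]
      have h1 := hre _ hs
      have h2 := Complex.normSq_pos.2 (hne _ hs)
      rw [Complex.div_re, ← add_div] at h1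
      have h3 := mul_nonneg h1 h2.le
      rw [div_mul_cancel₀ _ h2.ne'] at h3
      linarith
    have h1 := hmono (show (0 : ℝ) ≤ x from hx) (show (0 : ℝ) ≤ x' from hx.trans hxx') hxx'
    simp only [Complex.normSq_eq_norm_sq] at h1
    exact le_of_pow_le_pow_left₀ (by norm_num) (norm_nonneg _) h1

end Pool.Agent.Q190.GB
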